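import Pool.Agent.NH67.SH.Main

/-!
# MP_af75b4_an: tubular control does not characterise Logvinenko-Sereda families (`p < 2`)

On `S^2` there is one closed set `A` such that the constant family `A` satisfies the tubular
geometric control condition, but for every `1 ≤ p < 2` the family is not `L^p`
Logvinenko-Sereda: eigenfunctions (signed superpositions of Gaussian beams along a Kakeya type
configuration of great circles) have asymptotically no `L^p` mass on `A`.
-/

set_option autoImplicit false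

open MeasureTheory Metric Set Filter
open scoped Topology

namespace Pool.Agent.Results.MP_af75b4_an.TubularControlFails

open Pool.Agent.NH67.SH

theorem seq_of_not {p : ℝ} (hp : 1 ≤ p) {A : Set (Sph 2)}
    (h : ¬ LogvinenkoSereda (m := 2) p (fun _ => A)) :
    ∃ (lam : ℕ → ℝ) (e : ℕ → Sph 2 → ℂ),
      (∀ k, 1 ≤ lam k ∧ IsEigenfunction (m := 2) (lam k) (e k) ∧ e k ≠ 0) ∧
      Tendsto (fun k => (∫ x in A, ‖e k x‖ ^ p ∂(vol 2)) / ∫ x, ‖e k x‖ ^ p ∂(vol 2))
        atTop (𝓝 0) := by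
  have hex : ∀ k : ℕ, ∃ (lam : ℝ) (e : Sph 2 → ℂ), 1 ≤ lam ∧
      IsEigenfunction (m := 2) lam e ∧ (∫ x in A, ‖e x‖ ^ p ∂(vol 2)) <
        1 / ((k : ℝ) + 1) * ∫ x, ‖e x‖ ^ p ∂(vol 2) := by
    intro k
    by_contra hcon
    push Not at hcon
    exact h ⟨1 / ((k : ℝ) + 1), by positivity, fun lam hlam e he => hcon lam e hlam he⟩
  choose lam e h1 h2 h3 using hex
  have hnn : ∀ k, 0 ≤ ∫ x in A, ‖e k x‖ ^ p ∂(vol 2) := fun k =>
    integral_nonneg fun x => by positivity
  have hpos : ∀ k, 0 < ∫ x, ‖e k x‖ ^ p ∂(vol 2) := by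
    intro k
    have h4 := (hnn k).trans_lt (h3 k)
    exact (mul_pos_iff_of_pos_left (by positivity)).1 h4
  refine ⟨lam, e, fun k => ⟨h1 k, h2 k, ?_⟩, ?_⟩
  · intro h0
    have := hpos k
    rw [h0] at this
    simp [Real.zero_rpow (show p ≠ 0 by linarith)] at this
  · apply squeeze_zero (g := fun k : ℕ => 1 / ((k : ℝ) + 1))
    · intro k
      exact div_nonneg (hnn k) (hpos k).le
    · intro k
      rw [div_le_iff₀ (hpos k)]
      exact (h3 k).le
    · exact tendsto_one_div_add_atTop_nhds_zero_nat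

/-- There is one measurable set `A ⊆ S^2` such that the constant family `A` satisfies the tubular
geometric control condition and, for every `1 ≤ p < 2`, there are frequencies `lam k ≥ 1` and
nonzero eigenfunctions `e k` of frequency `lam k` with
`∫_A |e k| ^ p / ∫_{S^2} |e k| ^ p → 0`. -/
theorem result : ∃ A : Set (Sph 2), MeasurableSet A ∧ TGCC (m := 2) (fun _ => A) ∧
    ∀ p : ℝ, 1 ≤ p → p < 2 → ∃ (lam : ℕ → ℝ) (e : ℕ → Sph 2 → ℂ),
      (∀ k, 1 ≤ lam k ∧ IsEigenfunction (m := 2) (lam k) (e k) ∧ e k ≠ 0) ∧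
      Tendsto (fun k => (∫ x in A, ‖e k x‖ ^ p ∂(vol 2)) / ∫ x, ‖e k x‖ ^ p ∂(vol 2))
        atTop (𝓝 0) :=
  ⟨setA, measurableSet_setA, tgcc_setA, fun _ hp hp2 => seq_of_not hp (not_LS hp hp2)⟩

end Pool.Agent.Results.MP_af75b4_an.TubularControlFails
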